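import Pool.Agent.Helper482_OEC.Main

/-!
# Online edge colouring with `Δ` colours

For every `Δ ≥ 1` there is a randomised online algorithm which, on every finite simple graph of
maximum degree at most `Δ` (no condition on the girth) and for every order of arrival of the edges
fixed in advance, keeps a proper edge colouring with `Δ` colours of some of the edges, and gives a
colour to every single edge with probability at least `1 - 7169 * Δ ^ (-1/7)`.
-/

open scoped ENNReal BigOperators
open Finset

namespace Pool.Agent.Results.MP_8fc531_lc.OnlineEdgeColouring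

/-- What an online algorithm has seen on the vertex set `Fin n`: the edges revealed so far together
with its decisions (`some c`: the edge got the colour `c`; `none`: the edge was left uncoloured),
the most recent edge first. -/
abbrev History (n Δ : ℕ) : Type := List (Sym2 (Fin n) × Option (Fin Δ))

/-- A randomised online algorithm with colours `Fin Δ` on the vertex set `Fin n`: when an edge
arrives, it draws its irrevocable decision on this edge from a distribution which depends on the
history and on the new edge. -/
def Algorithm (n Δ : ℕ) : Type := History n Δ → Sym2 (Fin n) → PMF (Option (Fin Δ))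

/-- The distribution of the history after the arrival of the edges `es`, where `es` lists the most
recent edge first. -/
noncomputable def run {n Δ : ℕ} (A : Algorithm n Δ) : List (Sym2 (Fin n)) → PMF (History n Δ)
  | [] => PMF.pure []
  | e :: es => (run A es).bind fun h => (A h e).map fun o => (e, o) :: h

/-- Two different coloured edges of the history which share an endpoint have different colours. -/
def IsProper {n Δ : ℕ} (h : History n Δ) : Prop :=
  h.Pairwise fun a b => ∀ c, a.2 = some c → b.2 = some c → ∀ v, ¬ (v ∈ a.1 ∧ v ∈ b.1)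

/-- The algorithm always keeps a proper colouring. -/
def AlwaysProper {n Δ : ℕ} (A : Algorithm n Δ) : Prop :=
  ∀ es, ∀ h ∈ (run A es).support, IsProper h

/-- The probability that the edge `e` has a colour after the arrival of the edges `es`. -/
noncomputable def probColoured {n Δ : ℕ} (A : Algorithm n Δ) (es : List (Sym2 (Fin n)))
    (e : Sym2 (Fin n)) : ℝ≥0∞ :=
  (run A es).toOuterMeasure {h | ∃ c : Fin Δ, (e, some c) ∈ h}

/-- `es` is an order of arrival of the edges of `G` (each edge exactly once; the last edge to
arrive is listed first). -/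
def IsArrivalOrder {n : ℕ} (G : SimpleGraph (Fin n)) (es : List (Sym2 (Fin n))) : Prop :=
  es.Nodup ∧ ∀ e, e ∈ es ↔ e ∈ G.edgeSet

section Proof

open Helper482.OEC

variable {n Δ : ℕ} {D K : ℝ}

/-- the natural algorithm -/
noncomputable def alg (hP : Par D K) : Algorithm n Δ := fun h e =>
  PMF.ofFintype (fun o => ENNReal.ofReal (wt D K (W D K h) e o)) (by
    rw [← ENNReal.ofReal_sum_of_nonneg fun o _ => wt_nonneg hP (W_bd hP h) e o, wt_sum,
      ENNReal.ofReal_one])

lemma tsum_bind {α β : Type} (p : PMF α) (g : α → PMF β) (f : β → ℝ≥0∞) :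
    ∑' b, (p.bind g) b * f b = ∑' a, p a * ∑' b, g a b * f b := by
  simp only [PMF.bind_apply]
  calc ∑' b, (∑' a, p a * g a b) * f b = ∑' b, ∑' a, p a * g a b * f b := by
        refine tsum_congr fun b => ?_
        rw [ENNReal.tsum_mul_right]
    _ = ∑' a, ∑' b, p a * g a b * f b := ENNReal.tsum_comm
    _ = _ := by
        refine tsum_congr fun a => ?_
        rw [← ENNReal.tsum_mul_left]
        exact tsum_congr fun b => by ring

lemma tsum_pure {α : Type} (a : α) (f : α → ℝ≥0∞) : ∑' b, (PMF.pure a) b * f b = f a := by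
  rw [tsum_eq_single a]
  · simp
  · intro b hb
    simp [PMF.pure_apply, hb]

lemma tsum_map {α β : Type} (p : PMF α) (φ : α → β) (f : β → ℝ≥0∞) :
    ∑' b, (p.map φ) b * f b = ∑' a, p a * f (φ a) := by
  unfold PMF.map
  rw [tsum_bind]
  refine tsum_congr fun a => ?_
  rw [Function.comp_apply, tsum_pure]

lemma bridge (hP : Par D K) (es : List (Sym2 (Fin n))) (f : History n Δ → ℝ)
    (hf : ∀ h, 0 ≤ f h) :
    ∑' h, run (alg hP) es h * ENNReal.ofReal (f h) = ENNReal.ofReal (Ex D K es f) := by
  induction es generalizing f with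
  | nil => exact tsum_pure _ _
  | cons e es ih =>
    simp only [run, Ex]
    rw [tsum_bind]
    rw [← ih _ fun h => Finset.sum_nonneg fun o _ =>
      mul_nonneg (wt_nonneg hP (W_bd hP h) e o) (hf _)]
    refine tsum_congr fun h => ?_
    congr 1
    rw [tsum_map, tsum_fintype,
      ENNReal.ofReal_sum_of_nonneg fun o _ => mul_nonneg (wt_nonneg hP (W_bd hP h) e o) (hf _)]
    refine Finset.sum_congr rfl fun o _ => ?_
    rw [ENNReal.ofReal_mul (wt_nonneg hP (W_bd hP h) e o)]
    rfl

open Classical in
lemma probColoured_eq (hP : Par D K) (es : List (Sym2 (Fin n))) (e : Sym2 (Fin n)) :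
    probColoured (alg (Δ := Δ) hP) es e
      = ENNReal.ofReal (Ex D K es fun h => if ∃ c : Fin Δ, (e, some c) ∈ h then (1 : ℝ) else 0) := by
  rw [← bridge hP es _ (fun h => by split_ifs <;> norm_num)]
  unfold probColoured
  rw [PMF.toOuterMeasure_apply]
  refine tsum_congr fun h => ?_
  by_cases hh : ∃ c : Fin Δ, (e, some c) ∈ h
  · rw [Set.indicator_of_mem (by exact hh), if_pos hh]; simp
  · rw [Set.indicator_of_notMem (by exact hh), if_neg hh]; simp

open Classical in
lemma Ex_last (hP : Par D K) (es : List (Sym2 (Fin n))) (e : Sym2 (Fin n)) :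
    Ex D K es (fun h => ∑ c : Fin Δ, pp D K (W D K h) e c)
      ≤ Ex D K (e :: es) (fun h => if ∃ c : Fin Δ, (e, some c) ∈ h then (1 : ℝ) else 0) := by
  simp only [Ex]
  refine Ex_mono hP es _ _ fun h => ?_
  rw [Fintype.sum_option]
  have h1 : ∀ c : Fin Δ, wt D K (W D K h) e (some c)
      * (if ∃ c' : Fin Δ, (e, some c') ∈ ((e, some c) :: h : History n Δ) then (1 : ℝ) else 0)
      = pp D K (W D K h) e c := by
    intro c
    rw [if_pos ⟨c, List.mem_cons_self⟩, mul_one]
    rfl
  simp only [h1]
  have h2 : 0 ≤ wt D K (W D K h) e none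
      * (if ∃ c' : Fin Δ, (e, some c') ∈ ((e, none) :: h : History n Δ) then (1 : ℝ) else 0) := by
    refine mul_nonneg (wt_nonneg hP (W_bd hP h) e none) ?_
    split_ifs <;> norm_num
  linarith

open Classical in
lemma Ex_later (es' es : List (Sym2 (Fin n))) (e : Sym2 (Fin n))
    (he : e ∉ es') :
    Ex D K (es' ++ es) (fun h => if ∃ c : Fin Δ, (e, some c) ∈ h then (1 : ℝ) else 0)
      = Ex D K es (fun h => if ∃ c : Fin Δ, (e, some c) ∈ h then (1 : ℝ) else 0) := by
  induction es' with
  | nil => rfl
  | cons a es' ih =>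
    rw [List.cons_append, Ex_cons_indep a (es' ++ es) _
      (fun h => if ∃ c : Fin Δ, (e, some c) ∈ h then (1 : ℝ) else 0)]
    · exact ih fun h => he (List.mem_cons_of_mem _ h)
    · intro o h
      have hne : e ≠ a := fun h => he (h ▸ List.mem_cons_self)
      have : (∃ c : Fin Δ, (e, some c) ∈ ((a, o) :: h : History n Δ))
          ↔ ∃ c : Fin Δ, (e, some c) ∈ h := by
        constructor
        · rintro ⟨c, hc⟩
          rcases List.mem_cons.mp hc with hc | hc
          · exact absurd (Prod.mk.inj hc).1 hne
          · exact ⟨c, hc⟩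
        · rintro ⟨c, hc⟩
          exact ⟨c, List.mem_cons_of_mem _ hc⟩
      simp only [this]

lemma dg_append (es' es : List (Sym2 (Fin n))) (u : Fin n) :
    dg (es' ++ es) u = dg es' u + dg es u := by
  induction es' with
  | nil => simp [dg]
  | cons a es' ih =>
    simp only [List.cons_append, dg, ih]
    ring

open Classical in
lemma dg_eq (es : List (Sym2 (Fin n))) (hes : es.Nodup) (u : Fin n) :
    dg es u = (es.toFinset.filter (fun e => u ∈ e)).card := by
  induction es with
  | nil => simp [dg]
  | cons a es ih =>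
    rw [List.nodup_cons] at hes
    simp only [dg, ih hes.2, List.toFinset_cons, Finset.filter_insert]
    split_ifs with h
    · rw [Finset.card_insert_of_notMem]
      simp [hes.1]
    · rfl

lemma dg_le (G : SimpleGraph (Fin n)) (es : List (Sym2 (Fin n))) (ho : IsArrivalOrder G es)
    (u : Fin n) : dg es u ≤ (G.neighborSet u).ncard := by
  classical
  rw [dg_eq es ho.1 u]
  have h1 : (G.neighborSet u).ncard = (G.incidenceSet u).ncard := by
    rw [← Nat.card_coe_set_eq, ← Nat.card_coe_set_eq]
    exact Nat.card_congr (G.incidenceSetEquivNeighborSet u).symm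
  have h2 : ((es.toFinset.filter (fun e => u ∈ e) : Finset (Sym2 (Fin n))) : Set (Sym2 (Fin n)))
      = G.incidenceSet u := by
    ext e
    simp only [Finset.coe_filter, List.mem_toFinset, Set.mem_ofPred_eq, SimpleGraph.incidenceSet,
      ho.2 e]
  rw [h1, ← h2, Set.ncard_coe_finset]

lemma B_zero {w : Wts n Δ} {e : Sym2 (Fin n)} {v : Fin n} (hv : v ∈ e) {c : Fin Δ}
    (h0 : w v c = 0) : B w e c = 0 := by
  obtain ⟨x, rfl⟩ := hv
  rw [B_mk, h0, zero_mul]

lemma alg_proper_aux (hP : Par D K) (es : List (Sym2 (Fin n))) :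
    ∀ h ∈ (run (alg (Δ := Δ) hP) es).support, IsProper h ∧
      ∀ a ∈ h, ∀ c, a.2 = some c → ∀ x ∈ a.1, W D K h x c = 0 := by
  induction es with
  | nil =>
    intro h hh
    simp only [run, PMF.support_pure, Set.mem_singleton_iff] at hh
    subst hh
    exact ⟨List.Pairwise.nil, fun a ha => absurd ha List.not_mem_nil⟩
  | cons e es ih =>
    intro h' hh'
    simp only [run, PMF.mem_support_bind_iff, PMF.mem_support_map_iff] at hh'
    obtain ⟨h, hh, o, ho, rfl⟩ := hh'
    obtain ⟨ih1, ih2⟩ := ih h hh
    have hwt : wt D K (W D K h) e o ≠ 0 := by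
      intro h0
      rw [PMF.mem_support_iff] at ho
      apply ho
      simp [alg, PMF.ofFintype_apply, h0]
    constructor
    · unfold IsProper
      rw [List.pairwise_cons]
      refine ⟨?_, ih1⟩
      rintro b hb c hoc hbc v ⟨hve, hvb⟩
      simp only at hoc hve
      subst hoc
      apply hwt
      have h0 : W D K h v c = 0 := ih2 b hb c hbc v hvb
      simp only [wt]
      rcases pp_cases (D := D) (K := K) (W D K h) e c with h1 | h1
      · exact h1
      · rw [h1, B_zero hve h0, zero_div]
    · intro a ha c hac x hx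
      rcases List.mem_cons.mp ha with rfl | ha
      · simp only at hac hx
        simp only [W]
        unfold upd
        rw [if_pos hx, if_pos hac]
      · have h0 := ih2 a ha c hac x hx
        simp only [W]
        unfold upd
        rw [h0]
        split_ifs <;> simp

lemma alg_proper (hP : Par D K) : AlwaysProper (alg (n := n) (Δ := Δ) hP) :=
  fun es h hh => (alg_proper_aux hP es h hh).1

/-- lower bound for the natural algorithm -/
lemma alg_bound (hP : Par D K) (r : ℝ) (hr : 0 < r) (hr2 : (Δ : ℝ) + r ≤ D - D / K)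
    (G : SimpleGraph (Fin n)) (hG : ∀ v, (G.neighborSet v).ncard ≤ Δ)
    (es : List (Sym2 (Fin n))) (ho : IsArrivalOrder G es) (e : Sym2 (Fin n))
    (he : e ∈ G.edgeSet) :
    ENNReal.ofReal ((Δ : ℝ) / D - 7 * K ^ 4 * Δ / r ^ 2)
      ≤ probColoured (alg (Δ := Δ) hP) es e := by
  classical
  rw [probColoured_eq hP]
  apply ENNReal.ofReal_le_ofReal
  have hmem : e ∈ es := (ho.2 e).mpr he
  obtain ⟨es', es'', hsplit⟩ := List.append_of_mem hmem
  have hnd := ho.1
  rw [hsplit] at hnd ⊢
  have hnd1 : (e :: es'').Nodup := (List.nodup_append.mp hnd).2.1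
  have hnot : e ∉ es' := fun h => (List.nodup_append.mp hnd).2.2 e h e List.mem_cons_self rfl
  rw [Ex_later es' _ e hnot]
  refine le_trans ?_ (Ex_last hP es'' e)
  have hd : ∀ a ∈ es'', ¬ a.IsDiag := by
    intro a ha
    have : a ∈ es := by rw [hsplit]; simp [ha]
    exact G.not_isDiag_of_mem_edgeSet ((ho.2 a).mp this)
  have hdeg : ∀ u, dg (e :: es'') u ≤ Δ := by
    intro u
    have h1 := dg_le G es ho u
    rw [hsplit, dg_append] at h1
    have h2 := hG u
    omega
  induction e using Sym2.ind with
  | _ u v =>
    have huv : u ≠ v := G.ne_of_adj (by simpa using he)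
    exact main_bound hP es'' u v huv hd hnd1 r hr hr2 (hdeg u) (hdeg v)

end Proof

/-- **Online edge colouring with `Δ` colours.** For every `Δ ≥ 1` there is a randomised online
algorithm (knowing the vertex set and `Δ`) which always keeps a proper colouring with `Δ` colours
and which, for every simple graph of maximum degree at most `Δ` and every order of arrival of its
edges, colours each edge with probability at least `1 - 7169 * Δ ^ (-1/7)`. -/
theorem result (Δ : ℕ) (hΔ : 1 ≤ Δ) :
    ∃ A : ∀ n : ℕ, Algorithm n Δ, (∀ n, AlwaysProper (A n)) ∧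
      ∀ (n : ℕ) (G : SimpleGraph (Fin n)), (∀ v, (G.neighborSet v).ncard ≤ Δ) →
        ∀ es, IsArrivalOrder G es → ∀ e ∈ G.edgeSet,
          ENNReal.ofReal (1 - 7169 * (Δ : ℝ) ^ (-(1 / 7) : ℝ)) ≤ probColoured (A n) es e := by
  have hΔ0 : (0 : ℝ) < Δ := by exact_mod_cast hΔ
  set x : ℝ := (Δ : ℝ) ^ (-(1 / 7) : ℝ) with hx
  have hx0 : 0 < x := Real.rpow_pos_of_pos hΔ0 _
  have hx7 : x ^ 7 * Δ = 1 := by
    rw [hx, ← Real.rpow_natCast, ← Real.rpow_mul hΔ0.le]
    norm_num
    rw [Real.rpow_neg_one]
    field_simp
  by_cases hbig : 1 - 7169 * x ≤ 0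
  · refine ⟨fun n h e => PMF.pure none, ?_, ?_⟩
    · intro n es
      have key : ∀ h ∈ (run (n := n) (Δ := Δ) (fun h e => PMF.pure none) es).support,
          ∀ a ∈ h, a.2 = none := by
        induction es with
        | nil =>
          intro h hh
          simp only [run, PMF.support_pure, Set.mem_singleton_iff] at hh
          subst hh
          simp
        | cons e es ih =>
          intro h' hh'
          simp only [run, PMF.mem_support_bind_iff, PMF.mem_support_map_iff,
            PMF.support_pure, Set.mem_singleton_iff] at hh'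
          obtain ⟨h, hh, o, ho, rfl⟩ := hh'
          intro a ha
          rcases List.mem_cons.mp ha with rfl | ha
          · exact ho
          · exact ih h hh a ha
      intro h hh
      unfold IsProper
      refine List.Pairwise.imp_of_mem (R := fun _ _ => True) ?_ (List.pairwise_of_forall (by simp))
      intro a b ha _ _ c hac
      rw [key h hh a ha] at hac
      exact absurd hac (by simp)
    · intro n G _ es _ e _
      rw [ENNReal.ofReal_of_nonpos hbig]
      exact zero_le
  · push Not at hbig
    -- parameters
    have hx1 : 7169 * x < 1 := by linarith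
    set D : ℝ := (1 + x) * Δ with hDdef
    set K : ℝ := 2 * (1 + x) / x with hKdef
    have hxle : x ≤ 1 := by linarith
    have hK4 : K ≤ 4 / x := by
      rw [hKdef]
      apply div_le_div_of_nonneg_right _ hx0.le
      linarith
    have hKpos : 0 < K := by positivity
    have hΔx : (Δ : ℝ) = 1 / x ^ 7 := by field_simp; linarith
    have hP : Helper482.OEC.Par D K := by
      refine ⟨by positivity, ?_, ?_⟩
      · rw [hKdef, le_div_iff₀ hx0]; linarith
      · have h1 : K ^ 2 ≤ (4 / x) ^ 2 := pow_le_pow_left₀ hKpos.le hK4 2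
        have h2 : 2 * (4 / x) ^ 2 ≤ (Δ : ℝ) := by
          rw [hΔx]
          have : 2 * (4 / x) ^ 2 = 32 * x ^ 5 / x ^ 7 := by field_simp; ring
          rw [this]
          apply div_le_div_of_nonneg_right _ (by positivity)
          have h3 : x ^ 5 ≤ x := by
            calc x ^ 5 = x * x ^ 4 := by ring
              _ ≤ x * 1 := mul_le_mul_of_nonneg_left (pow_le_one₀ hx0.le hxle) hx0.le
              _ = x := mul_one x
          linarith
        have h4 : (Δ : ℝ) ≤ D := by rw [hDdef]; nlinarith
        linarith
    have hr : 0 < x * Δ / 2 := by positivity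
    have hr2 : (Δ : ℝ) + x * Δ / 2 ≤ D - D / K := by
      have h1 : D / K = x * Δ / 2 := by
        rw [hDdef, hKdef]; field_simp
      rw [h1, hDdef]
      apply le_of_eq; ring
    refine ⟨fun n => alg hP, fun n => alg_proper hP, ?_⟩
    intro n G hG es ho e he
    refine le_trans ?_ (alg_bound hP (x * Δ / 2) hr hr2 G hG es ho e he)
    apply ENNReal.ofReal_le_ofReal
    have h1 : 1 - x ≤ (Δ : ℝ) / D := by
      rw [hDdef, le_div_iff₀ (by positivity)]
      nlinarith [mul_pos hx0 hΔ0]
    have h2 : 7 * K ^ 4 * Δ / (x * Δ / 2) ^ 2 ≤ 7168 * x := by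
      have h3 : K ^ 4 ≤ (4 / x) ^ 4 := pow_le_pow_left₀ hKpos.le hK4 4
      calc 7 * K ^ 4 * Δ / (x * Δ / 2) ^ 2 ≤ 7 * (4 / x) ^ 4 * Δ / (x * Δ / 2) ^ 2 := by
            apply div_le_div_of_nonneg_right _ (by positivity)
            apply mul_le_mul_of_nonneg_right _ hΔ0.le
            linarith
        _ = 7168 * x := by
            rw [hΔx]
            field_simp
            ring
    linarith

end Pool.Agent.Results.MP_8fc531_lc.OnlineEdgeColouring
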